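import Pool.Agent.Helper49.SE.El0

/-!
# Project SE, package LOCAL: the local data
-/

set_option autoImplicit false
set_option linter.unusedSectionVars false

namespace Pool.Agent.Helper85.SE

open MvPolynomial Pool.Agent.W559.Mg Pool.Agent.W559.Et Pool.Agent.Helper49.SQ
  Pool.Agent.Helper49.SE

section loc

variable {k K : Type} [Field k] [Field K] [Algebra k K] {B : Subalgebra k K} {q : Ideal B}

/-- the maximal ideal of the local ring at `q` -/
def Mx (q : Ideal B) (x : K) : Prop := ∃ a b : B, a ∈ q ∧ b ∉ q ∧ x * b = a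

theorem Mx.add (hq : q.IsPrime) {x y : K} (hx : Mx q x) (hy : Mx q y) : Mx q (x + y) := by
  obtain ⟨a, b, ha, hb, h⟩ := hx
  obtain ⟨a', b', ha', hb', h'⟩ := hy
  refine ⟨a * b' + a' * b, b * b', q.add_mem (q.mul_mem_right _ ha) (q.mul_mem_right _ ha'),
    hq.mul_notMem hb hb', ?_⟩
  push_cast
  rw [← h, ← h']
  ring

theorem Mx.neg {x : K} (hx : Mx q x) : Mx q (-x) := by
  obtain ⟨a, b, ha, hb, h⟩ := hx
  refine ⟨-a, b, q.neg_mem ha, hb, ?_⟩
  push_cast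
  rw [← h]
  ring

theorem Mx.mul (hq : q.IsPrime) {x y : K} (hx : Mx q x) (hy : y ∈ locR B q hq) : Mx q (x * y) := by
  obtain ⟨a, b, ha, hb, h⟩ := hx
  obtain ⟨a', b', hb', h'⟩ := hy
  refine ⟨a * a', b * b', q.mul_mem_right _ ha, hq.mul_notMem hb hb', ?_⟩
  push_cast
  rw [← h, ← h']
  ring

theorem Mx.ne (hq : q.IsPrime) {x y : K} (hx : Mx q x) (hy : y ∈ locR B q hq) : x * y ≠ 1 := by
  intro h
  have h1 := hx.mul hq hy
  rw [h] at h1
  obtain ⟨a, b, ha, hb, h2⟩ := h1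
  rw [one_mul] at h2
  exact hb (by rwa [Subtype.ext h2])

theorem mx_of (hq : q.IsPrime) {x : K} (hx : x ∈ locR B q hq)
    (h : ∀ y ∈ locR B q hq, x * y ≠ 1) : Mx q x := by
  obtain ⟨a, b, hb, h1⟩ := hx
  refine ⟨a, b, ?_, hb, h1⟩
  by_contra ha
  have ha0 : (a : K) ≠ 0 := by
    intro h0
    exact ha (by rw [show a = 0 from Subtype.ext h0]; exact q.zero_mem)
  have hb0 : (b : K) ≠ 0 := by
    intro h0
    exact hb (by rw [show b = 0 from Subtype.ext h0]; exact q.zero_mem)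
  refine h ((b : K) / a) ⟨b, a, ha, div_mul_cancel₀ _ ha0⟩ ?_
  rw [← mul_div_assoc, h1, div_self ha0]

theorem mem_loc (hq : q.IsPrime) {x : K} (hx : x ∈ B) : x ∈ locR B q hq :=
  ⟨⟨x, hx⟩, 1, fun h => hq.ne_top ((Ideal.eq_top_iff_one q).2 h), by
    push_cast
    rw [mul_one]⟩

theorem mx_mem (hq : q.IsPrime) {x : K} (hx : x ∈ B) (h : (⟨x, hx⟩ : B) ∈ q) : Mx q x :=
  ⟨⟨x, hx⟩, 1, h, fun h => hq.ne_top ((Ideal.eq_top_iff_one q).2 h), by
    push_cast
    rw [mul_one]⟩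

theorem mem_of_mx (hq : q.IsPrime) {x : K} (hx : x ∈ B) (h : Mx q x) : (⟨x, hx⟩ : B) ∈ q := by
  obtain ⟨a, b, ha, hb, h1⟩ := h
  have h2 : (⟨x, hx⟩ : B) * b = a := Subtype.ext h1
  rw [← h2] at ha
  exact (hq.mem_or_mem ha).resolve_right hb

variable {G : Type} [Group G] {ρ : G →* (K ≃ₐ[k] K)}

theorem inG_one (O : Subalgebra k K) : InG ρ O 1 := by
  intro x hx
  rw [map_one]
  refine ⟨hx, fun x' _ => ?_⟩
  rw [AlgEquiv.one_apply, sub_self, zero_mul]
  exact zero_ne_one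

theorem inG_mx (hq : q.IsPrime) {g : G} (h : InG ρ (locR B q hq) g) {x : K}
    (hx : x ∈ locR B q hq) : Mx q (ρ g x - x) :=
  mx_of hq ((locR B q hq).sub_mem (h x hx).1 hx) (h x hx).2

theorem inG_mul (hq : q.IsPrime) {g h : G} (hg : InG ρ (locR B q hq) g)
    (hh : InG ρ (locR B q hq) h) : InG ρ (locR B q hq) (g * h) := by
  intro x hx
  have e : ρ (g * h) x = ρ g (ρ h x) := by
    rw [map_mul]
    rfl
  have h1 := (hh x hx).1
  rw [e]
  refine ⟨(hg _ h1).1, fun x' hx' => ?_⟩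
  have h2 := (inG_mx hq hg h1).add hq (inG_mx hq hh hx)
  have h3 : ρ g (ρ h x) - ρ h x + (ρ h x - x) = ρ g (ρ h x) - x := by ring
  rw [h3] at h2
  exact h2.ne hq hx'

end loc

section ch

variable {k K : Type} [Field k] [Field K] [Algebra k K] {N : ℕ} {A : Subalgebra k K}
  {z : Fin (N + 1) → K}

theorem span_div {x : K} (hx : x ∈ Submodule.span k (Set.range z)) (j : Fin (N + 1)) :
    x / z j ∈ Ch A z j := by
  induction hx using Submodule.span_induction with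
  | mem x hx =>
    obtain ⟨i, rfl⟩ := hx
    exact (le_sup_right : _ ≤ Ch A z j) (Algebra.subset_adjoin ⟨i, rfl⟩)
  | zero =>
    rw [zero_div]
    exact (Ch A z j).zero_mem
  | add x y _ _ hx hy =>
    rw [add_div]
    exact (Ch A z j).add_mem hx hy
  | smul c x _ hx =>
    rw [Algebra.smul_def, mul_div_assoc]
    exact (Ch A z j).mul_mem ((Ch A z j).algebraMap_mem c) hx

theorem fo_prod (h1 : FoMulStm) {ι : Type} (S : Finset ι) (D : ℕ) (x : ι → K)
    (h : ∀ i ∈ S, x i ∈ Fo A z D) : ∏ i ∈ S, x i ∈ Fo A z (D * S.card) := by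
  classical
  obtain ⟨hm, h0, -⟩ := h1 k K N A z
  induction S using Finset.induction_on with
  | empty =>
    rw [Finset.prod_empty, Finset.card_empty, mul_zero]
    exact h0 1 A.one_mem
  | insert a S ha ih =>
    rw [Finset.prod_insert ha, Finset.card_insert_of_notMem ha]
    have := hm _ _ _ _ (h a (Finset.mem_insert_self _ _))
      (ih fun i hi => h i (Finset.mem_insert_of_mem hi))
    have e : D * (S.card + 1) = D + D * S.card := by ring
    rw [e]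
    exact this

theorem lc_lc {B : Subalgebra k K} {f g : K} (hf : f ∈ B) (hg : g ∈ B) :
    lc B (f * g) (B.mul_mem hf hg) = lc (lc B f hf) g (le_lc B f hf hg) := by
  ext x
  constructor
  · rintro ⟨n, hn⟩
    refine ⟨n, n, ?_⟩
    rwa [mul_pow, mul_assoc] at hn
  · rintro ⟨n, m, hm⟩
    refine ⟨m + n, ?_⟩
    have e : (f * g) ^ (m + n) * x = (f ^ n * g ^ m) * (f ^ m * (g ^ n * x)) := by ring
    rw [e]
    exact B.mul_mem (B.mul_mem (B.pow_mem hf _) (B.pow_mem hg _)) hm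

end ch

/-- **Package LOCAL.** -/
theorem local_ (h1 : FoMulStm) (h2 : FoChStm) (h3 : FoActStm) (h4 : SpreadGStm)
    (h5 : InNearStm) (h6 : EtLocStm) : LocalStm := by
  intro k K _ _ _ N A z G _ _ ρ hact hsm j q hq hlin
  classical
  have _ := Fintype.ofFinite G
  obtain ⟨hFm, hF0, -⟩ := h1 k K N A z
  obtain ⟨hC1, hC2⟩ := h2 k K N A z hact.z0 j
  have hA := h3 k K N A z G ρ hact
  obtain ⟨f0, hf0, n, y, hf0q, het, hy⟩ := h4 k K G ρ (Ch A z j) (hsm j) q hq hlin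
  obtain ⟨f2, hf2, hf2q, hf2'⟩ := h5 k K N A z G ρ hact j q hq
  have hzj : z j ≠ 0 := hact.z0 j
  have hf00 : f0 ≠ 0 := by
    intro h0
    subst h0
    exact hf0q (by rw [show (⟨0, hf0⟩ : Ch A z j) = 0 from rfl]; exact q.zero_mem)
  have hf20 : f2 ≠ 0 := by
    intro h0
    subst h0
    exact hf2q (by rw [show (⟨0, hf2⟩ : Ch A z j) = 0 from rfl]; exact q.zero_mem)
  -- the exponent
  have hy1 : ∀ i, ∃ m : ℕ, f0 ^ m * (y i : K) ∈ Ch A z j := fun i => (y i).2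
  choose m hm using hy1
  obtain ⟨r, hr⟩ : ∃ r : ℕ, ∀ i, m i ≤ r := ⟨∑ i, m i, fun i =>
    Finset.single_le_sum (fun _ _ => Nat.zero_le _) (Finset.mem_univ i)⟩
  have hyr : ∀ i, f0 ^ r * (y i : K) ∈ Ch A z j := fun i => by
    have e : f0 ^ r * (y i : K) = f0 ^ (r - m i) * (f0 ^ m i * (y i : K)) := by
      rw [← mul_assoc, ← pow_add, Nat.sub_add_cancel (hr i)]
    rw [e]
    exact (Ch A z j).mul_mem ((Ch A z j).pow_mem hf0 _) (hm i)
  have hfr : f0 ^ r ∈ Ch A z j := (Ch A z j).pow_mem hf0 _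
  obtain ⟨da, hda⟩ := hC2 _ hfr
  choose db hdb using fun i => hC2 _ (hyr i)
  obtain ⟨D0, hD0, hD1, hD2⟩ : ∃ D0 : ℕ, 0 < D0 ∧ da ≤ D0 ∧ ∀ i, db i ≤ D0 :=
    ⟨1 + da + ∑ i, db i, by omega, by omega, fun i => by
      have := Finset.single_le_sum (f := db) (fun _ _ => Nat.zero_le _) (Finset.mem_univ i)
      omega⟩
  have hβ : f0 ^ r * z j ^ D0 ∈ Fo A z D0 := hda _ hD1
  have hβy : ∀ i, f0 ^ r * (y i : K) * z j ^ D0 ∈ Fo A z D0 := fun i => hdb i _ (hD2 i)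
  obtain ⟨β, hβe⟩ : ∃ β : K, β = f0 ^ r * z j ^ D0 := ⟨_, rfl⟩
  have hβ0 : β ≠ 0 := by
    rw [hβe]
    exact mul_ne_zero (pow_ne_zero _ hf00) (pow_ne_zero _ hzj)
  rw [← hβe] at hβ
  -- the inertia group
  obtain ⟨I, hI⟩ : ∃ I : Finset G, ∀ g, g ∈ I ↔ InG ρ (locR (Ch A z j) q hq) g :=
    ⟨Finset.univ.filter fun g => InG ρ (locR (Ch A z j) q hq) g, fun g => by simp⟩
  have h1I : (1 : G) ∈ I := (hI 1).2 (inG_one _)
  obtain ⟨s, hs⟩ : ∃ s : K, s = ∏ h ∈ I, ρ h β := ⟨_, rfl⟩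
  have hs0 : s ≠ 0 := by
    rw [hs]
    refine Finset.prod_ne_zero_iff.2 fun h _ => ?_
    rw [Ne, EmbeddingLike.map_eq_zero_iff]
    exact hβ0
  obtain ⟨D, hD⟩ : ∃ D : ℕ, D = D0 * I.card := ⟨_, rfl⟩
  have hsF : s ∈ Fo A z D := by
    rw [hs, hD]
    exact fo_prod h1 I D0 _ fun h _ => hA h D0 β hβ
  have hsinv : ∀ g ∈ I, ρ g s = s := by
    intro g hg
    rw [hs, map_prod]
    have e1 : ∀ h : G, ρ g (ρ h β) = ρ (g * h) β := fun h => by
      rw [map_mul]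
      rfl
    simp only [e1]
    have himg : I.image (fun h => g * h) = I := by
      apply Finset.eq_of_subset_of_card_le
      · intro x hx
        obtain ⟨h, hh, rfl⟩ := Finset.mem_image.1 hx
        exact (hI _).2 (inG_mul hq ((hI g).1 hg) ((hI h).1 hh))
      · rw [Finset.card_image_of_injective _ (mul_right_injective g)]
    conv_rhs => rw [← himg]
    rw [Finset.prod_image fun a _ b _ hab => mul_right_injective g hab]
  have hsy : ∀ i, s * (y i : K) ∈ Fo A z D := by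
    intro i
    have e1 : s * (y i : K) = (f0 ^ r * (y i : K) * z j ^ D0) * ∏ h ∈ I.erase 1, ρ h β := by
      have e3 : β * (y i : K) = f0 ^ r * (y i : K) * z j ^ D0 := by
        rw [hβe]
        ring
      rw [hs, ← Finset.mul_prod_erase _ _ h1I, map_one, AlgEquiv.one_apply, ← e3]
      ring
    rw [e1]
    have e2 : D = D0 + D0 * (I.erase 1).card := by
      rw [hD, Finset.card_erase_of_mem h1I]
      have : 0 < I.card := Finset.card_pos.2 ⟨1, h1I⟩
      obtain ⟨c, hc⟩ : ∃ c, I.card = c + 1 := ⟨I.card - 1, by omega⟩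
      rw [hc, Nat.add_sub_cancel]
      ring
    rw [e2]
    exact hFm _ _ _ _ (hβy i) (fo_prod h1 _ D0 _ fun h _ => hA h D0 β hβ)
  -- the function `u`
  have hv : ∀ h, ρ h β / z j ^ D0 ∈ Ch A z j := fun h => hC1 _ _ (hA h D0 β hβ)
  have hvq : ∀ h ∈ I, (⟨ρ h β / z j ^ D0, hv h⟩ : Ch A z j) ∉ q := by
    intro h hh hcon
    have hin := (hI h).1 hh
    have ht' : z j / ρ h (z j) ∈ locR (Ch A z j) q hq := by
      have h7 : ρ h⁻¹ (z j) / z j ∈ Ch A z j := span_div (hact.lin h⁻¹ j) j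
      have h8 := (hin _ (mem_loc hq h7)).1
      rw [map_div₀] at h8
      have h9 : ρ h (ρ h⁻¹ (z j)) = z j := by
        have : ρ h (ρ h⁻¹ (z j)) = (ρ h * ρ h⁻¹) (z j) := rfl
        rw [this, ← map_mul, mul_inv_cancel, map_one]
        rfl
      rwa [h9] at h8
    have hρz : ρ h (z j) ≠ 0 := by
      rw [Ne, EmbeddingLike.map_eq_zero_iff]
      exact hzj
    have h10 : Mx q (ρ h (f0 ^ r)) := by
      have h11 := (mx_mem hq (hv h) hcon).mul hq
        ((locR (Ch A z j) q hq).pow_mem ht' D0)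
      have e : ρ h β / z j ^ D0 * (z j / ρ h (z j)) ^ D0 = ρ h (f0 ^ r) := by
        rw [hβe, map_mul, map_pow (ρ h) (z j) D0, div_pow]
        field_simp
      rwa [e] at h11
    have h12 := h10.add hq (inG_mx hq hin (mem_loc hq hfr)).neg
    have e : ρ h (f0 ^ r) + -(ρ h (f0 ^ r) - f0 ^ r) = f0 ^ r := by ring
    rw [e] at h12
    have h13 := mem_of_mx hq hfr h12
    have h14 : (⟨f0, hf0⟩ : Ch A z j) ^ r ∈ q := h13
    exact hf0q (hq.mem_of_pow_mem _ h14)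
  have hu : s / z j ^ D ∈ Ch A z j := hC1 _ _ hsF
  have hue : (⟨s / z j ^ D, hu⟩ : Ch A z j) =
      ∏ h ∈ I, (⟨ρ h β / z j ^ D0, hv h⟩ : Ch A z j) := by
    apply Subtype.ext
    rw [SubmonoidClass.coe_finsetProd]
    change s / z j ^ D = ∏ h ∈ I, ρ h β / z j ^ D0
    rw [Finset.prod_div_distrib, ← hs, Finset.prod_const, hD, pow_mul]
  have huq : (⟨s / z j ^ D, hu⟩ : Ch A z j) ∉ q := by
    rw [hue]
    intro hcon
    obtain ⟨h, hh, h7⟩ := (hq.prod_mem_iff).1 hcon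
    exact hvq h hh h7
  have hDp : 0 < D := by
    rw [hD]
    exact Nat.mul_pos hD0 (Finset.card_pos.2 ⟨1, h1I⟩)
  obtain ⟨u, hue'⟩ : ∃ u : K, u = s / z j ^ D := ⟨_, rfl⟩
  have hu' : u ∈ Ch A z j := by rw [hue']; exact hu
  have hu0 : u ≠ 0 := by
    rw [hue']
    exact div_ne_zero hs0 (pow_ne_zero _ hzj)
  have huq' : (⟨u, hu'⟩ : Ch A z j) ∉ q := by
    have : (⟨u, hu'⟩ : Ch A z j) = ⟨s / z j ^ D, hu⟩ := Subtype.ext hue'
    rw [this]
    exact huq
  have hg : u * f2 ∈ Ch A z j := (Ch A z j).mul_mem hu' hf2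
  have hf : f0 * (u * f2) ∈ Ch A z j := (Ch A z j).mul_mem hf0 hg
  have hle : lc (Ch A z j) f0 hf0 ≤ lc (Ch A z j) (f0 * (u * f2)) hf := by
    rw [lc_lc hf0 hg]
    exact le_lc _ _ _
  refine ⟨D, f0 * (u * f2), hf, hDp, ?_, s, n, fun i => ⟨y i, hle (y i).2⟩, ?_, hs0, hsF,
    fun i => hsy i, ?_, trivial, fun _ => trivial, ?_⟩
  · have e : (⟨f0 * (u * f2), hf⟩ : Ch A z j) =
        ⟨f0, hf0⟩ * (⟨u, hu'⟩ * ⟨f2, hf2⟩) := rfl
    rw [e]
    exact hq.mul_notMem hf0q (hq.mul_notMem huq' hf2q)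
  · exact h6 k K (Ch A z j) f0 (u * f2) hf0 hg (mul_ne_zero hu0 hf20)
      (lc (Ch A z j) (f0 * (u * f2)) hf) hle (lc_lc hf0 hg) n y het _ fun i => rfl
  · refine ⟨1, ?_⟩
    have e : (f0 * (u * f2)) ^ 1 * (z j ^ D / s) = f0 * f2 := by
      rw [hue', pow_one]
      have := pow_ne_zero D hzj
      field_simp
    rw [e]
    exact (Ch A z j).mul_mem hf0 hf2
  · rintro g ⟨q', hq', hfq', hgq'⟩
    have h7 : (⟨f2, hf2⟩ : Ch A z j) ∉ q' := by
      intro hcon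
      apply hfq'
      have e : (⟨f0 * (u * f2), hf⟩ : Ch A z j) =
        ⟨f0, hf0⟩ * ⟨u, hu'⟩ * ⟨f2, hf2⟩ := Subtype.ext (by
          push_cast
          ring)
      rw [e]
      exact q'.mul_mem_left _ hcon
    have h8 := hf2' q' hq' h7 g hgq'
    exact ⟨hsinv g ((hI g).2 h8), fun i => hy g h8 i⟩

end Pool.Agent.Helper85.SE
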